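import Pool.Agent.Helper10.Qc.Stmts

set_option autoImplicit false

/-!
`LEAF` of the quaternionic certificate: soundness of a leaf of the lower bound.
-/

namespace Pool.Agent.Helper2.Qc

open Pool.Agent.Helper10.Qc

theorem leaf_cond {a b : Bool} (h : cond a b false = true) : a = true ∧ b = true := by
  cases a
  · exact absurd h (by simp)
  · exact ⟨rfl, h⟩

theorem leaf_cons (L : List (ℕ × ℕ)) (a b : ℕ × ℕ → ℕ) :
    (L.map fun x => x.2 * cons80 (a x) (b x)).sum =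
      cons80 (L.map fun x => x.2 * a x).sum (L.map fun x => x.2 * b x).sum := by
  have hc : ∀ d h : ℕ, cons80 d h = d + 2 ^ 80 * h := fun _ _ => rfl
  induction L with
  | nil => rfl
  | cons x L ih =>
    simp only [List.map_cons, List.sum_cons]
    rw [ih, hc, hc, hc]
    ring

theorem leaf_off (L : List (ℕ × ℕ)) (a : ℕ → ℕ) (F : ℕ → ℝ) (c : ℝ)
    (h : ∀ x ∈ L, (a x.1 : ℝ) = F x.1 + c) :
    (((L.map fun x => x.2 * a x.1).sum : ℕ) : ℝ) =
      (L.map fun x => (x.2 : ℝ) * F x.1).sum + c * (((L.map Prod.snd).sum : ℕ) : ℝ) := by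
  induction L with
  | nil => simp
  | cons x L ih =>
    simp only [List.map_cons, List.sum_cons]
    push_cast
    have h1 := ih (fun y hy => h y (List.mem_cons_of_mem _ hy))
    have h2 := h x List.mem_cons_self
    push_cast at h1
    rw [h1, h2]
    ring

theorem leaf_le (L : List (ℕ × ℕ)) (a : ℕ → ℕ) (B : ℕ) (h : ∀ x ∈ L, a x.1 ≤ B) :
    (L.map fun x => x.2 * a x.1).sum ≤ (L.map Prod.snd).sum * B := by
  induction L with
  | nil => simp
  | cons x L ih =>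
    simp only [List.map_cons, List.sum_cons]
    rw [Nat.add_mul]
    exact Nat.add_le_add (Nat.mul_le_mul_left _ (h x List.mem_cons_self))
      (ih (fun y hy => h y (List.mem_cons_of_mem _ hy)))

theorem leaf_Qv (D k e u : Fin 4 → ℝ) : Qv D k e u = 1024 * dt u u + 4 * dt D D * dt e e +
    dt k k + 128 * dt u (ms e D) + 64 * dt u k + 4 * dt e (mu k D) := by
  unfold Qv dt ms mu
  simp only [Matrix.cons_val_zero, Matrix.cons_val_one, Matrix.cons_val]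
  ring

theorem leaf_ms (t : ℝ) (u e D X : Fin 4 → ℝ) :
    dt u (ms e (fun i => t * D i + X i)) = t * dt u (ms e D) + dt u (ms e X) := by
  unfold dt ms
  simp only [Matrix.cons_val_zero, Matrix.cons_val_one, Matrix.cons_val]
  ring

theorem leaf_dt (t : ℝ) (u D X : Fin 4 → ℝ) :
    dt u (fun i => t * D i + X i) = t * dt u D + dt u X := by
  unfold dt
  ring

theorem leaf_lin (e u : Fin 4 → ℝ) (D k : ℕ → Fin 4 → ℝ) (L : List (ℕ × ℕ)) :
    (L.map fun x => (x.2 : ℝ) * Qv (D x.1) (k x.1) e u).sum =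
      1024 * (((L.map Prod.snd).sum : ℕ) : ℝ) * dt u u +
      4 * (L.map fun x => (x.2 : ℝ) * dt (D x.1) (D x.1)).sum * dt e e +
      (L.map fun x => (x.2 : ℝ) * dt (k x.1) (k x.1)).sum +
      128 * dt u (ms e (fun i => (L.map fun x => (x.2 : ℝ) * D x.1 i).sum)) +
      64 * dt u (fun i => (L.map fun x => (x.2 : ℝ) * k x.1 i).sum) +
      4 * dt e (fun i => (L.map fun x => (x.2 : ℝ) * mu (k x.1) (D x.1) i).sum) := by
  induction L with
  | nil =>
    simp [dt, ms]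
  | cons x L ih =>
    simp only [List.map_cons, List.sum_cons]
    rw [ih, leaf_Qv, leaf_ms, leaf_dt, leaf_dt]
    push_cast
    ring

theorem leaf_lower (L : List (ℕ × ℕ)) (F : ℕ → ℝ) (c : ℝ) (h : ∀ x ∈ L, c ≤ F x.1) :
    c * (((L.map Prod.snd).sum : ℕ) : ℝ) ≤ (L.map fun x => (x.2 : ℝ) * F x.1).sum := by
  induction L with
  | nil => simp
  | cons x L ih =>
    simp only [List.map_cons, List.sum_cons]
    have h1 := ih (fun y hy => h y (List.mem_cons_of_mem _ hy))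
    have h2 := mul_le_mul_of_nonneg_left (h x List.mem_cons_self)
      (Nat.cast_nonneg x.2 : (0 : ℝ) ≤ x.2)
    push_cast at h1 ⊢
    linarith

theorem leaf_phL (x : ℝ) (hx : 0 < x) : 0 ≤ phL x := by
  unfold phL
  split_ifs with h
  · refine mul_nonneg ?_ (sq_nonneg _)
    have h1 : 2285 / 1000 / (5 / 4) ≤ 2285 / 1000 / x :=
      div_le_div_of_nonneg_left (by norm_num) hx h
    norm_num at h1 ⊢
    linarith
  · exact le_rfl

theorem leaf_allOK (z0 z1 z2 z3 : ℕ) (W : List ℕ) (h : allOK z0 z1 z2 z3 W = true) :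
    ∀ c ∈ W, c < 34359738368 ∧ mkP z0 z1 z2 z3 c ≠ 0 := by
  induction W with
  | nil => intro c hc; simp at hc
  | cons a W ih =>
    intro c hc
    unfold allOK at h
    obtain ⟨ha, h⟩ := leaf_cond h
    have hb : Nat.beq (mkP z0 z1 z2 z3 a) 0 = false ∧ allOK z0 z1 z2 z3 W = true := by
      cases hh : Nat.beq (mkP z0 z1 z2 z3 a) 0
      · rw [hh] at h
        exact ⟨rfl, h⟩
      · rw [hh] at h
        exact absurd h (by simp)
    rcases List.mem_cons.1 hc with rfl | hc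
    · refine ⟨?_, ?_⟩
      · simpa [Nat.blt_eq] using ha
      · exact Nat.ne_of_beq_eq_false hb.1
    · exact ih hb.2 c hc

theorem leaf_linA (j : ℕ) : linA j < 4294967296 := Nat.mod_lt _ (by norm_num)

theorem leaf_sumA (l : List (ℕ × ℕ)) :
    ((l.map fun x => (x.1, linA x.2)).map Prod.snd).sum ≤ l.length * 4294967296 := by
  induction l with
  | nil => simp
  | cons x l ih =>
    simp only [List.map_cons, List.sum_cons, List.length_cons]
    have := leaf_linA x.2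
    omega

theorem st_LEAF (h1 : ST_MKP) (h2 : ST_MKT) (h3 : ST_SUMA) (h4 : ST_SUMB) (h5 : ST_DIG)
    (h6 : ST_FIN) (h7 : ST_TAB) : ST_LEAF := by
  intro z0 z1 z2 z3 W hz0 hz1 hz2 hz3 hy0 hy1 hy2 hy3 _ hW ji na ca nb cb l0 h0 l1 h1' l2 h2' l3
    h3' l4 h4' l5 h5' l6 h6' l7 h7' b0 b1 b2 b3 b4 b5 b6 b7 hleaf e u hbox hdom hHH hQ
  have hWc := leaf_allOK z0 z1 z2 z3 W hW
  -- the data of the cusp vectors
  have hdat : ∀ w : ℕ, ∃ v : Fin 14 → ℕ, w < W.length →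
      (mkP z0 z1 z2 z3 (W.getD w 0) = pack (v 0) (v 1) (v 2) (v 3) (v 4) (v 5) (v 6) (v 7) (v 8)
        (v 9) (v 10) (v 11) (v 12) (v 13)) ∧ (∀ i, v i ≤ 2 ^ 38) ∧
      ((v 0 : ℝ) = dt (cD z0 z1 z2 z3 (W.getD w 0)) (cD z0 z1 z2 z3 (W.getD w 0)) + 0) ∧
      ((v 1 : ℝ) = cD z0 z1 z2 z3 (W.getD w 0) 0 + 64) ∧
      ((v 2 : ℝ) = cD z0 z1 z2 z3 (W.getD w 0) 1 + 64) ∧
      ((v 3 : ℝ) = cD z0 z1 z2 z3 (W.getD w 0) 2 + 64) ∧
      ((v 4 : ℝ) = cD z0 z1 z2 z3 (W.getD w 0) 3 + 64) ∧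
      ((v 5 : ℝ) = cK z0 z1 z2 z3 (W.getD w 0) 0 + 262144) ∧
      ((v 6 : ℝ) = cK z0 z1 z2 z3 (W.getD w 0) 1 + 262144) ∧
      ((v 7 : ℝ) = cK z0 z1 z2 z3 (W.getD w 0) 2 + 262144) ∧
      ((v 8 : ℝ) = cK z0 z1 z2 z3 (W.getD w 0) 3 + 262144) ∧
      ((v 9 : ℝ) = mu (cK z0 z1 z2 z3 (W.getD w 0)) (cD z0 z1 z2 z3 (W.getD w 0)) 0 +
        67108864) ∧
      ((v 10 : ℝ) = mu (cK z0 z1 z2 z3 (W.getD w 0)) (cD z0 z1 z2 z3 (W.getD w 0)) 1 +
        67108864) ∧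
      ((v 11 : ℝ) = mu (cK z0 z1 z2 z3 (W.getD w 0)) (cD z0 z1 z2 z3 (W.getD w 0)) 2 +
        67108864) ∧
      ((v 12 : ℝ) = mu (cK z0 z1 z2 z3 (W.getD w 0)) (cD z0 z1 z2 z3 (W.getD w 0)) 3 +
        67108864) ∧
      ((v 13 : ℝ) = dt (cK z0 z1 z2 z3 (W.getD w 0)) (cK z0 z1 z2 z3 (W.getD w 0)) + 0) := by
    intro w
    by_cases hw : w < W.length
    · have hm : W.getD w 0 ∈ W := by
        rw [List.getD_eq_getElem _ _ hw]
        exact List.getElem_mem hw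
      obtain ⟨hc1, hc2⟩ := hWc _ hm
      obtain ⟨_, n2, d0, d1, d2, d3, k0, k1, k2, k3, q0, q1, q2, q3, kk, hp, hb, e1, e2, e3, e4,
        e5⟩ := h1 z0 z1 z2 z3 _ hz0 hz1 hz2 hz3 hy0 hy1 hy2 hy3 hc2 hc1
      obtain ⟨c0, c1, c2, c3, c4, c5, c6, c7, c8, c9, c10, c11, c12, c13⟩ := hb
      refine ⟨![n2, d0, d1, d2, d3, k0, k1, k2, k3, q0, q1, q2, q3, kk], fun _ =>
        ⟨hp, ?_, by rw [add_zero]; exact e1, e2.1, e2.2.1, e2.2.2.1, e2.2.2.2, e3.1, e3.2.1,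
          e3.2.2.1, e3.2.2.2, e4.1, e4.2.1, e4.2.2.1, e4.2.2.2, by rw [add_zero]; exact e5⟩⟩
      intro i
      fin_cases i
      · exact c0.le
      · exact c1.le
      · exact c2.le
      · exact c3.le
      · exact c4.le
      · exact c5.le
      · exact c6.le
      · exact c7.le
      · exact c8.le
      · exact c9.le
      · exact c10.le
      · exact c11.le
      · exact c12.le
      · exact c13
    · exact ⟨fun _ => 0, fun h => absurd h hw⟩
  choose v hv using hdat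
  -- the entries of the table
  have hT : ∀ w, w < W.length → big (mkT z0 z1 z2 z3 W) w = pack (v w 0) (v w 1) (v w 2) (v w 3)
      (v w 4) (v w 5) (v w 6) (v w 7) (v w 8) (v w 9) (v w 10) (v w 11) (v w 12) (v w 13) := by
    intro w hw
    rw [h2 z0 z1 z2 z3 W ?_ w hw, ← (hv w hw).1, List.getD_eq_getElem _ _ hw]
    intro c hc
    obtain ⟨hc1, hc2⟩ := hWc _ hc
    obtain ⟨_, n2, d0, d1, d2, d3, k0, k1, k2, k3, q0, q1, q2, q3, kk, hp, hb, _⟩ :=
      h1 z0 z1 z2 z3 _ hz0 hz1 hz2 hz3 hy0 hy1 hy2 hy3 hc2 hc1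
    obtain ⟨c0, c1, c2, c3, c4, c5, c6, c7, c8, c9, c10, c11, c12, c13⟩ := hb
    have h80 : (2 : ℕ) ^ 38 < 2 ^ 80 := by norm_num
    exact (h5 1 n2 d0 d1 d2 d3 k0 k1 k2 k3 q0 q1 q2 q3 kk (by norm_num) (by omega) (by omega)
      (by omega) (by omega) (by omega) (by omega) (by omega) (by omega) (by omega) (by omega)
      (by omega) (by omega) (by omega) (by omega) _ hp).1
  -- the sums
  unfold leaf at hleaf
  obtain ⟨hji, hleaf⟩ := leaf_cond hleaf
  obtain ⟨hna, hleaf⟩ := leaf_cond hleaf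
  rw [Nat.ble_eq] at hji hna
  obtain ⟨l, hlen, hpw, hlm, hleaf⟩ := h3 _ _ _ _ _ _ _ _ hleaf
  obtain ⟨l', hlm', hleaf⟩ := h4 _ _ _ _ _ _ _ hleaf
  unfold fin3 at hleaf
  obtain ⟨hK, hleaf⟩ := leaf_cond hleaf
  obtain ⟨hb, hleaf⟩ := leaf_cond hleaf
  rw [Nat.ble_eq] at hK hb
  rw [Nat.zero_add] at hb
  set L : List (ℕ × ℕ) := l.map (fun x => (x.1, linA x.2)) ++ l' with hL
  have hLm : ∀ x ∈ L, x.1 < W.length := by
    intro x hx
    rw [hL] at hx
    rcases List.mem_append.1 hx with hx | hx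
    · obtain ⟨y, hy, rfl⟩ := List.mem_map.1 hx
      exact (hlm y hy).2.1
    · exact hlm' x hx
  set A : ℕ := (L.map Prod.snd).sum with hA
  have hAb : A < 2 ^ 41 := by
    rw [hA, hL, List.map_append, List.sum_append]
    have i1 := leaf_sumA l
    rw [hlen] at i1
    have i2 : na * 4294967296 ≤ 255 * 4294967296 := Nat.mul_le_mul_right _ hna
    have i3 : 255 * 4294967296 + 8589934591 < 2 ^ 41 := by norm_num
    omega
  have hSb : ∀ i : Fin 14, (L.map fun x => x.2 * v x.1 i).sum < 2 ^ 80 := by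
    intro i
    have i1 := leaf_le L (fun w => v w i) (2 ^ 38) (fun x hx => (hv x.1 (hLm x hx)).2.1 i)
    have i2 : A * 2 ^ 38 < 2 ^ 80 := by
      have i3 : A * 2 ^ 38 ≤ 2 ^ 41 * 2 ^ 38 := Nat.mul_le_mul_right _ hAb.le
      have i4 : (2 : ℕ) ^ 41 * 2 ^ 38 < 2 ^ 80 := by norm_num
      exact lt_of_le_of_lt i3 i4
    rw [← hA] at i1
    exact lt_of_le_of_lt i1 i2
  set S : ℕ := 0 + (l.map fun x => linA x.2 * big (mkT z0 z1 z2 z3 W) x.1).sum +
    (l'.map fun x => x.2 * big (mkT z0 z1 z2 z3 W) x.1).sum with hS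
  have hSL : S = (L.map fun x => x.2 * pack (v x.1 0) (v x.1 1) (v x.1 2) (v x.1 3) (v x.1 4)
      (v x.1 5) (v x.1 6) (v x.1 7) (v x.1 8) (v x.1 9) (v x.1 10) (v x.1 11) (v x.1 12)
      (v x.1 13)).sum := by
    have i1 : (L.map fun x => x.2 * pack (v x.1 0) (v x.1 1) (v x.1 2) (v x.1 3) (v x.1 4)
      (v x.1 5) (v x.1 6) (v x.1 7) (v x.1 8) (v x.1 9) (v x.1 10) (v x.1 11) (v x.1 12)
      (v x.1 13)) = L.map fun x => x.2 * big (mkT z0 z1 z2 z3 W) x.1 := by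
      refine List.map_congr_left fun x hx => ?_
      rw [hT x.1 (hLm x hx)]
    rw [i1, hS, hL, List.map_append, List.sum_append, Nat.zero_add, List.map_map]
    rfl
  have hSp : S = cons80 A (cons80 (L.map fun x => x.2 * v x.1 0).sum
      (cons80 (L.map fun x => x.2 * v x.1 1).sum (cons80 (L.map fun x => x.2 * v x.1 2).sum
      (cons80 (L.map fun x => x.2 * v x.1 3).sum (cons80 (L.map fun x => x.2 * v x.1 4).sum
      (cons80 (L.map fun x => x.2 * v x.1 5).sum (cons80 (L.map fun x => x.2 * v x.1 6).sum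
      (cons80 (L.map fun x => x.2 * v x.1 7).sum (cons80 (L.map fun x => x.2 * v x.1 8).sum
      (cons80 (L.map fun x => x.2 * v x.1 9).sum (cons80 (L.map fun x => x.2 * v x.1 10).sum
      (cons80 (L.map fun x => x.2 * v x.1 11).sum (cons80 (L.map fun x => x.2 * v x.1 12).sum
      (L.map fun x => x.2 * v x.1 13).sum))))))))))))) := by
    rw [hSL]
    unfold pack
    have i0 : A = (L.map fun x => x.2 * 1).sum := by
      rw [hA]
      simp
    rw [i0, leaf_cons, leaf_cons, leaf_cons, leaf_cons, leaf_cons, leaf_cons, leaf_cons,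
      leaf_cons, leaf_cons, leaf_cons, leaf_cons, leaf_cons, leaf_cons, leaf_cons]
  have hA80 : A < 2 ^ 80 := by
    have : (2 : ℕ) ^ 41 < 2 ^ 80 := by norm_num
    omega
  obtain ⟨_, g0, g1, g2, g3, g4, g5, g6, g7, g8, g9, g10, g11, g12, g13, g14⟩ :=
    h5 A _ _ _ _ _ _ _ _ _ _ _ _ _ _ hA80 (hSb 0) (hSb 1) (hSb 2) (hSb 3) (hSb 4) (hSb 5)
      (hSb 6) (hSb 7) (hSb 8) (hSb 9) (hSb 10) (hSb 11) (hSb 12) (hSb 13) S hSp
  rw [g0, g1, g2, g3, g4, g5, g6, g7, g8, g9, g10, g11, g12, g13, g14] at hleaf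
  have hoff : ∀ (i : Fin 14) (F : ℕ → ℝ) (c : ℝ),
      (∀ w, w < W.length → (v w i : ℝ) = F w + c) →
      (((L.map fun x => x.2 * v x.1 i).sum : ℕ) : ℝ) =
      (L.map fun x => (x.2 : ℝ) * F x.1).sum + c * (A : ℝ) := by
    intro i F c hF
    exact leaf_off L (fun w => v w i) F c (fun x hx => hF x.1 (hLm x hx))
  have hfin := h6 _ _ _ _ _ _ _ _ _ _ _ _ _ _ _ _ _ _ _ _ _ _ _ _ _ _ _ _ _ _ _ _ _ _
    b0 b1 b2 b3 b4 b5 b6 b7 hleaf e u hbox
    (fun i => (L.map fun x => (x.2 : ℝ) * cD z0 z1 z2 z3 (W.getD x.1 0) i).sum)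
    (fun i => (L.map fun x => (x.2 : ℝ) * cK z0 z1 z2 z3 (W.getD x.1 0) i).sum)
    (fun i => (L.map fun x => (x.2 : ℝ) * mu (cK z0 z1 z2 z3 (W.getD x.1 0))
      (cD z0 z1 z2 z3 (W.getD x.1 0)) i).sum)
    ⟨hoff 1 (fun w => cD z0 z1 z2 z3 (W.getD w 0) 0) 64 (fun w hw => (hv w hw).2.2.2.1),
      hoff 2 (fun w => cD z0 z1 z2 z3 (W.getD w 0) 1) 64 (fun w hw => (hv w hw).2.2.2.2.1),
      hoff 3 (fun w => cD z0 z1 z2 z3 (W.getD w 0) 2) 64 (fun w hw => (hv w hw).2.2.2.2.2.1),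
      hoff 4 (fun w => cD z0 z1 z2 z3 (W.getD w 0) 3) 64
        (fun w hw => (hv w hw).2.2.2.2.2.2.1)⟩
    ⟨hoff 5 (fun w => cK z0 z1 z2 z3 (W.getD w 0) 0) 262144
        (fun w hw => (hv w hw).2.2.2.2.2.2.2.1),
      hoff 6 (fun w => cK z0 z1 z2 z3 (W.getD w 0) 1) 262144
        (fun w hw => (hv w hw).2.2.2.2.2.2.2.2.1),
      hoff 7 (fun w => cK z0 z1 z2 z3 (W.getD w 0) 2) 262144
        (fun w hw => (hv w hw).2.2.2.2.2.2.2.2.2.1),
      hoff 8 (fun w => cK z0 z1 z2 z3 (W.getD w 0) 3) 262144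
        (fun w hw => (hv w hw).2.2.2.2.2.2.2.2.2.2.1)⟩
    ⟨hoff 9 (fun w => mu (cK z0 z1 z2 z3 (W.getD w 0)) (cD z0 z1 z2 z3 (W.getD w 0)) 0)
        67108864 (fun w hw => (hv w hw).2.2.2.2.2.2.2.2.2.2.2.1),
      hoff 10 (fun w => mu (cK z0 z1 z2 z3 (W.getD w 0)) (cD z0 z1 z2 z3 (W.getD w 0)) 1)
        67108864 (fun w hw => (hv w hw).2.2.2.2.2.2.2.2.2.2.2.2.1),
      hoff 11 (fun w => mu (cK z0 z1 z2 z3 (W.getD w 0)) (cD z0 z1 z2 z3 (W.getD w 0)) 2)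
        67108864 (fun w hw => (hv w hw).2.2.2.2.2.2.2.2.2.2.2.2.2.1),
      hoff 12 (fun w => mu (cK z0 z1 z2 z3 (W.getD w 0)) (cD z0 z1 z2 z3 (W.getD w 0)) 3)
        67108864 (fun w hw => (hv w hw).2.2.2.2.2.2.2.2.2.2.2.2.2.2.1)⟩
  rw [hoff 0 (fun w => dt (cD z0 z1 z2 z3 (W.getD w 0)) (cD z0 z1 z2 z3 (W.getD w 0))) 0
      (fun w hw => (hv w hw).2.2.1),
    hoff 13 (fun w => dt (cK z0 z1 z2 z3 (W.getD w 0)) (cK z0 z1 z2 z3 (W.getD w 0))) 0
      (fun w hw => (hv w hw).2.2.2.2.2.2.2.2.2.2.2.2.2.2.2), zero_mul, add_zero, add_zero] at hfin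
  have hlin := leaf_lin e u (fun w => cD z0 z1 z2 z3 (W.getD w 0))
    (fun w => cK z0 z1 z2 z3 (W.getD w 0)) L
  rw [← hA] at hlin
  rw [← hlin, hL, List.map_append, List.sum_append, List.map_map] at hfin
  -- the part of the second list
  have hQw : ∀ w, w < W.length → 2 ^ 30 ≤ Qv (cD z0 z1 z2 z3 (W.getD w 0))
      (cK z0 z1 z2 z3 (W.getD w 0)) e u := by
    intro w hw
    refine hQ _ ?_
    rw [List.getD_eq_getElem _ _ hw]
    exact List.getElem_mem hw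
  have hB := leaf_lower l' (fun w => Qv (cD z0 z1 z2 z3 (W.getD w 0))
      (cK z0 z1 z2 z3 (W.getD w 0)) e u) (2 ^ 30) (fun x hx => hQw x.1 (hlm' x hx))
  -- the tangents
  set H : ℝ := HH e u with hH
  have hKr : ((Nat.sub (linI ji + (l.map fun x => linI x.2).sum) tau : ℕ) : ℝ) =
      (linI ji : ℝ) + (l.map fun x => (linI x.2 : ℝ)).sum - 3237600 := by
    have i1 : ((linI ji + (l.map fun x => linI x.2).sum - tau : ℕ) : ℝ) =
        ((linI ji + (l.map fun x => linI x.2).sum : ℕ) : ℝ) - (tau : ℕ) := Nat.cast_sub hK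
    have i2 : ((linI ji + (l.map fun x => linI x.2).sum : ℕ) : ℝ) =
        (linI ji : ℝ) + (l.map fun x => (linI x.2 : ℝ)).sum := by
      push_cast [Nat.cast_list_sum, List.map_map]
      rfl
    have i3 : ((tau : ℕ) : ℝ) = 3237600 := by norm_num [tau]
    rw [i2, i3] at i1
    exact i1
  rw [hKr] at hfin
  have htan : ∀ l1 : List (ℕ × ℕ), (∀ x ∈ l1, x.1 < W.length ∧ x.2 < 64) →
      (l1.map fun x => (linI x.2 : ℝ)).sum * H -
      (l1.map ((fun x : ℕ × ℕ => (x.2 : ℝ) * Qv (cD z0 z1 z2 z3 (W.getD x.1 0))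
        (cK z0 z1 z2 z3 (W.getD x.1 0)) e u) ∘ fun x => (x.1, linA x.2))).sum ≤
      10 ^ 6 * H * (l1.map fun x => phL (Qv (cD z0 z1 z2 z3 (W.getD x.1 0))
        (cK z0 z1 z2 z3 (W.getD x.1 0)) e u / H)).sum := by
    intro l1
    induction l1 with
    | nil => intro _; simp
    | cons x l1 ih =>
      intro hx
      have i1 := ih (fun y hy => hx y (List.mem_cons_of_mem _ hy))
      obtain ⟨i2, i3⟩ := hx x List.mem_cons_self
      simp only [List.map_cons, List.sum_cons, Function.comp] at i1 ⊢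
      have hq := hQw x.1 i2
      have hq0 : 0 < Qv (cD z0 z1 z2 z3 (W.getD x.1 0)) (cK z0 z1 z2 z3 (W.getD x.1 0)) e u :=
        lt_of_lt_of_le (by norm_num) hq
      have i4 := h7 x.2 i3.le (Qv (cD z0 z1 z2 z3 (W.getD x.1 0))
        (cK z0 z1 z2 z3 (W.getD x.1 0)) e u / H) (div_pos hq0 hHH)
      rw [div_le_iff₀ (by norm_num)] at i4
      have i5 := mul_le_mul_of_nonneg_right i4 hHH.le
      have i6 : ((linI x.2 : ℝ) - (linA x.2 : ℝ) * (Qv (cD z0 z1 z2 z3 (W.getD x.1 0))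
        (cK z0 z1 z2 z3 (W.getD x.1 0)) e u / H)) * H = (linI x.2 : ℝ) * H - (linA x.2 : ℝ) *
        Qv (cD z0 z1 z2 z3 (W.getD x.1 0)) (cK z0 z1 z2 z3 (W.getD x.1 0)) e u := by
        field_simp
      rw [i6] at i5
      linarith
  have hl1 := htan l (fun x hx => ⟨(hlm x hx).2.1, (hlm x hx).2.2⟩)
  have hinf := h7 ji hji (2 ^ 30 / H) (by positivity)
  rw [div_le_iff₀ (by norm_num)] at hinf
  have hinf2 := mul_le_mul_of_nonneg_right hinf hHH.le
  have hinf3 : ((linI ji : ℝ) - (linA ji : ℝ) * (2 ^ 30 / H)) * H = (linI ji : ℝ) * H -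
      (linA ji : ℝ) * 2 ^ 30 := by
    field_simp
  rw [hinf3] at hinf2
  -- comparison of the sums
  have hcmp : (l.map fun x => phL (Qv (cD z0 z1 z2 z3 (W.getD x.1 0))
      (cK z0 z1 z2 z3 (W.getD x.1 0)) e u / H)).sum ≤
      (W.map fun c => phL (Qv (cD z0 z1 z2 z3 c) (cK z0 z1 z2 z3 c) e u / H)).sum := by
    have i1 : (l.map fun x => phL (Qv (cD z0 z1 z2 z3 (W.getD x.1 0))
      (cK z0 z1 z2 z3 (W.getD x.1 0)) e u / H)) = (l.map Prod.fst).map fun w =>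
      phL (Qv (cD z0 z1 z2 z3 (W.getD w 0)) (cK z0 z1 z2 z3 (W.getD w 0)) e u / H) := by
      rw [List.map_map]
      rfl
    have hnd : (l.map Prod.fst).Nodup := hpw.imp (fun h => Nat.ne_of_lt h)
    rw [i1, ← List.sum_toFinset _ hnd,
      ← Fin.sum_univ_fun_getElem W (fun c => phL (Qv (cD z0 z1 z2 z3 c)
        (cK z0 z1 z2 z3 c) e u / H))]
    have i2 : ∑ i : Fin W.length, phL (Qv (cD z0 z1 z2 z3 W[i.1]) (cK z0 z1 z2 z3 W[i.1]) e u / H)
        = ∑ w ∈ Finset.range W.length, phL (Qv (cD z0 z1 z2 z3 (W.getD w 0))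
          (cK z0 z1 z2 z3 (W.getD w 0)) e u / H) := by
      rw [Finset.sum_range]
      refine Finset.sum_congr rfl fun i _ => ?_
      rw [List.getD_eq_getElem _ _ i.2]
    rw [i2]
    refine Finset.sum_le_sum_of_subset_of_nonneg ?_ ?_
    · intro w hw
      rw [List.mem_toFinset, List.mem_map] at hw
      obtain ⟨x, hx, rfl⟩ := hw
      rw [Finset.mem_range]
      exact (hlm x hx).2.1
    · intro w hw _
      rw [Finset.mem_range] at hw
      refine leaf_phL _ (div_pos (lt_of_lt_of_le (by norm_num) (hQw w hw)) hHH)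
  -- conclusion
  rw [Nat.zero_add] at hfin
  have hfinal : 3237600 * H ≤ 10 ^ 6 * H * (phL (2 ^ 30 / H) +
      (l.map fun x => phL (Qv (cD z0 z1 z2 z3 (W.getD x.1 0))
      (cK z0 z1 z2 z3 (W.getD x.1 0)) e u / H)).sum) := by
    linarith
  have hfinal2 : 3237600 * H ≤ 10 ^ 6 * (phL (2 ^ 30 / H) +
      (l.map fun x => phL (Qv (cD z0 z1 z2 z3 (W.getD x.1 0))
      (cK z0 z1 z2 z3 (W.getD x.1 0)) e u / H)).sum) * H := by
    linarith
  have hfinal3 := le_of_mul_le_mul_right hfinal2 hHH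
  linarith

end Pool.Agent.Helper2.Qc
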